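import Pool.Agent.H99Z.SDDD

set_option autoImplicit false

namespace Pool.Agent.Results.MP_3de96c_nt.ACommonPoint

open Pool.Agent.H99Z.SDD

/-- Q1 fails over every number field `K` and for every `d ≥ 1`: there are a projective variety `X`
and a surjective endomorphism `f` over `K` with `d₁(f) > 1` and periodic subvarieties of small
dynamical degree of arbitrarily large period that contain a point of degree at most `d`.
(The example is the Segre variety `P¹ × P²` with the map `(z³, w²)`.) -/
theorem result (K : Type) [Field K] [NumberField K] (d : ℝ) (hd : 1 ≤ d) :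
    ∃ (ι : Type) (_ : Fintype ι)
      (X : Set (Projectivization (AlgebraicClosure K) (ι → AlgebraicClosure K)))
      (f : Projectivization (AlgebraicClosure K) (ι → AlgebraicClosure K) →
        Projectivization (AlgebraicClosure K) (ι → AlgebraicClosure K)) (δ : ℝ),
      IsClosedOver K X ∧ IsVariety X ∧ IsMorphismOver K X f ∧ f '' X = X ∧
      HasDynDeg X f δ ∧ 1 < δ ∧
      ∀ N : ℕ, ∃ (Y : Set (Projectivization (AlgebraicClosure K) (ι → AlgebraicClosure K)))
        (s : ℕ), IsVariety Y ∧ Y ⊆ X ∧ HasPeriod f Y s ∧ N < s ∧ IsSDD X f Y ∧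
          ∃ x ∈ Y, 1 ≤ ptDegree K x ∧ (ptDegree K x : ℝ) ≤ d := by
  obtain ⟨ι, i, X, f, δ, h1, h2, h3, h4, h5, h6, x, hx, h7⟩ :=
    main (L := AlgebraicClosure K) K
  refine ⟨ι, i, X, f, δ, h1, h2, h3, h4, h5, h6, fun N => ?_⟩
  obtain ⟨Y, s, a1, a2, a3, a4, a5, a6⟩ := h7 N
  exact ⟨Y, s, a1, a2, a3, a4, a5, x, a6, hx.ge, by rw [hx]; exact_mod_cast hd⟩

end Pool.Agent.Results.MP_3de96c_nt.ACommonPoint
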